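import Pool.Agent.Y121.ZI.KunDefs
import Pool.Agent.Y121.CF.Main

/-!
Rational coefficients for the projector to the even part.
-/

set_option autoImplicit false

open scoped TensorProduct

universe v

namespace Pool.Agent.Y824.ZI

open Pool.Agent.Y121.ZI Pool.Agent.Y121.CF

section

variable {K V : Type} [Field K] [AddCommGroup V] [Module K V]

theorem act_eq {A : Type} [Ring A] (ρ : A →+* Module.End K V) (c : A →₀ K) :
    act K K ρ c = (∑ x ∈ c.support, c x • ρ x).baseChange K := by
  refine LinearMap.ext fun z => ?_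
  induction z using TensorProduct.induction_on with
  | zero => rw [map_zero, map_zero]
  | tmul a v =>
    unfold act
    rw [LinearMap.sum_apply, LinearMap.baseChange_tmul, LinearMap.sum_apply,
      TensorProduct.tmul_sum]
    refine Finset.sum_congr rfl fun x _ => ?_
    rw [LinearMap.smul_apply, LinearMap.baseChange_tmul, LinearMap.smul_apply,
      TensorProduct.tmul_smul]
    rfl
  | add x y hx hy => rw [map_add, map_add, hx, hy]

/-- the restriction to an invariant subspace -/
def rs (R : Subring (Module.End K V)) (W : Submodule K V)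
    (hW : ∀ f ∈ R, ∀ x ∈ W, f x ∈ W) : R →+* Module.End K W where
  toFun f := (f : Module.End K V).restrict (hW f f.2)
  map_one' := rfl
  map_mul' _ _ := rfl
  map_zero' := rfl
  map_add' _ _ := rfl

/-- the trace of a restriction -/
theorem trace_rs [FiniteDimensional K V] (R : Subring (Module.End K V)) (W : Submodule K V)
    (hW : ∀ f ∈ R, ∀ x ∈ W, f x ∈ W) (E : Module.End K V) (hE : ∀ x, E x ∈ W)
    (hE' : ∀ x ∈ W, E x = x) (hc : ∀ f ∈ R, ∀ x, E (f x) = f (E x)) (f : R) :
    LinearMap.trace K W (rs R W hW f) = LinearMap.trace K V (E ∘ₗ (f : Module.End K V)) := by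
  have h1 : E ∘ₗ (f : Module.End K V) =
      W.subtype ∘ₗ ((rs R W hW f) ∘ₗ E.codRestrict W hE) := by
    refine LinearMap.ext fun x => ?_
    change E ((f : Module.End K V) x) = (f : Module.End K V) (E x)
    exact hc f f.2 x
  have h2 : ((rs R W hW f) ∘ₗ E.codRestrict W hE) ∘ₗ W.subtype = rs R W hW f := by
    refine LinearMap.ext fun x => ?_
    apply Subtype.ext
    change (f : Module.End K V) (E x) = (f : Module.End K V) x
    rw [hE' x x.2]
  rw [h1, LinearMap.trace_comp_comm', h2]

theorem gen [CharZero K] [FiniteDimensional K V] (p : V →ₗ[K] V) (hp : Invol p)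
    (R : Subring (Module.End K V)) (hR : ∀ f ∈ R, ∀ x, f (p x) = p (f x))
    (htr : ∀ f ∈ R, ∃ n : ℤ, LinearMap.trace K V (p ∘ₗ f) = (n : K))
    (h : evenProj p ∈ Submodule.span K (R : Set (Module.End K V))) :
    ∃ n : ℕ, n ≠ 0 ∧ (n • evenProj p : Module.End K V) ∈ R := by
  have h2 : (2 : K) ≠ 0 := two_ne_zero
  let Vp : Submodule K V := LinearMap.ker (p - LinearMap.id)
  let Vm : Submodule K V := LinearMap.ker (p + LinearMap.id)
  have hVp : ∀ x, x ∈ Vp ↔ p x = x := by
    intro x
    change (p - LinearMap.id : V →ₗ[K] V) x = 0 ↔ _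
    rw [LinearMap.sub_apply, LinearMap.id_apply, sub_eq_zero]
  have hVm : ∀ x, x ∈ Vm ↔ p x = -x := by
    intro x
    change (p + LinearMap.id : V →ₗ[K] V) x = 0 ↔ _
    rw [LinearMap.add_apply, LinearMap.id_apply, add_eq_zero_iff_eq_neg]
  have hWp : ∀ f ∈ R, ∀ x ∈ Vp, f x ∈ Vp := by
    intro f hf x hx
    rw [hVp] at hx ⊢
    rw [← hR f hf, hx]
  have hWm : ∀ f ∈ R, ∀ x ∈ Vm, f x ∈ Vm := by
    intro f hf x hx
    rw [hVm] at hx ⊢
    rw [← hR f hf, hx, map_neg]
  have hEx : ∀ x, evenProj p x = (2 : K)⁻¹ • (x + p x) := fun x => rfl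
  have hOx : ∀ x, oddProj p x = (2 : K)⁻¹ • (x - p x) := fun x => rfl
  have hEp : ∀ x, evenProj p x ∈ Vp := by
    intro x
    rw [hVp, hEx, map_smul, map_add, hp x, add_comm]
  have hEp' : ∀ x ∈ Vp, evenProj p x = x := by
    intro x hx
    rw [hVp] at hx
    rw [hEx, hx, ← two_smul K x, smul_smul, inv_mul_cancel₀ h2, one_smul]
  have hEm' : ∀ x ∈ Vm, evenProj p x = 0 := by
    intro x hx
    rw [hVm] at hx
    rw [hEx, hx, add_neg_cancel, smul_zero]
  have hOm : ∀ x, oddProj p x ∈ Vm := by
    intro x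
    rw [hVm, hOx, map_smul, map_sub, hp x, ← smul_neg, neg_sub]
  have hOm' : ∀ x ∈ Vm, oddProj p x = x := by
    intro x hx
    rw [hVm] at hx
    rw [hOx, hx, sub_neg_eq_add, ← two_smul K x, smul_smul, inv_mul_cancel₀ h2, one_smul]
  have hEc : ∀ f ∈ R, ∀ x, evenProj p (f x) = f (evenProj p x) := by
    intro f hf x
    rw [hEx, hEx, map_smul, map_add, hR f hf]
  have hOc : ∀ f ∈ R, ∀ x, oddProj p (f x) = f (oddProj p x) := by
    intro f hf x
    rw [hOx, hOx, map_smul, map_sub, hR f hf]
  have hsum : ∀ x, evenProj p x + oddProj p x = x := by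
    intro x
    rw [hEx, hOx, ← smul_add, add_add_sub_cancel, ← two_smul K x, smul_smul,
      inv_mul_cancel₀ h2, one_smul]
  have hdiff : evenProj p - oddProj p = p := by
    refine LinearMap.ext fun x => ?_
    rw [LinearMap.sub_apply, hEx, hOx, ← smul_sub, add_sub_sub_cancel, ← two_smul K (p x),
      smul_smul, inv_mul_cancel₀ h2, one_smul]
  let rp := rs R Vp hWp
  let rm := rs R Vm hWm
  have hχ : ∀ x : R, ∃ q : ℚ, LinearMap.trace K Vp (rp x) - LinearMap.trace K Vm (rm x) =
      (q : K) := by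
    intro f
    obtain ⟨n, hn⟩ := htr f f.2
    refine ⟨n, ?_⟩
    rw [trace_rs R Vp hWp (evenProj p) hEp hEp' hEc, trace_rs R Vm hWm (oddProj p) hOm hOm' hOc,
      ← map_sub, ← LinearMap.sub_comp, hdiff, hn, Rat.cast_intCast]
  have hcnc : CNC K K rp rm := by
    obtain ⟨c, hc⟩ : ∃ c : R →₀ K,
        Finsupp.linearCombination K (fun r : R => (r : Module.End K V)) c = evenProj p :=
      (Finsupp.mem_span_iff_linearCombination K _ _).1 h
    have hc' : ∀ x, ∑ r ∈ c.support, c r • (r : Module.End K V) x = evenProj p x := by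
      intro x
      rw [← hc, Finsupp.linearCombination_apply, Finsupp.sum, LinearMap.sum_apply]
      rfl
    refine ⟨c, ?_, ?_⟩
    · rw [act_eq]
      have h1 : ∑ x ∈ c.support, c x • rp x = 1 := by
        refine LinearMap.ext fun x => Subtype.ext ?_
        rw [LinearMap.sum_apply, AddSubmonoidClass.coe_finsetSum]
        change ∑ r ∈ c.support, c r • (r : Module.End K V) x = (x : V)
        rw [hc', hEp' x x.2]
      rw [h1]
      exact LinearMap.baseChange_id
    · rw [act_eq]
      have h1 : ∑ x ∈ c.support, c x • rm x = 0 := by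
        refine LinearMap.ext fun x => Subtype.ext ?_
        rw [LinearMap.sum_apply, AddSubmonoidClass.coe_finsetSum]
        change ∑ r ∈ c.support, c r • (r : Module.End K V) x = (0 : V)
        rw [hc', hEm' x x.2]
      rw [h1, LinearMap.baseChange_zero]
  obtain ⟨r, hr⟩ := sep_int K K rp rm (sep_of_cnc K K rp rm hcnc)
  obtain ⟨a, N, hN, ha, hb⟩ := proj_of_sep rp rm hχ r hr
  refine ⟨N, hN, ?_⟩
  have h3 : (N • evenProj p : Module.End K V) = a := by
    refine LinearMap.ext fun x => ?_
    have h4 := congrArg Subtype.val (LinearMap.congr_fun ha ⟨_, hEp x⟩)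
    have h5 := congrArg Subtype.val (LinearMap.congr_fun hb ⟨_, hOm x⟩)
    change (a : Module.End K V) (evenProj p x) = _ at h4
    change (a : Module.End K V) (oddProj p x) = 0 at h5
    have h6 : (((N : Module.End K Vp) ⟨_, hEp x⟩ : Vp) : V) = N • evenProj p x := by
      rw [← nsmul_one N]
      rfl
    rw [h6] at h4
    conv_rhs => rw [← hsum x]
    rw [map_add, h4, h5, add_zero]
    rfl
  rw [h3]
  exact a.2

end

/-- **Rational coefficients.** -/
theorem cnc {K : Type} [Field K] [CharZero K] (T : NCTheory.{0, v, 0} K) (A : T.Obj)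
    (htr : ∀ f ∈ T.cor A A, ∃ n : ℤ, LinearMap.trace K (T.H A) (T.par A ∘ₗ f) = (n : K))
    (h : InSpan (T.cor A A) (evenProj (T.par A))) :
    ∃ n : ℕ, n ≠ 0 ∧ n • evenProj (T.par A) ∈ T.cor A A := by
  have := T.fin A
  let R : Subring (Module.End K (T.H A)) :=
    { carrier := {f | f ∈ T.cor A A}
      mul_mem' := fun {f g} hf hg => T.cor_comp A A A g hg f hf
      one_mem' := T.cor_id A
      add_mem' := fun {f g} hf hg => (T.cor A A).add_mem hf hg
      zero_mem' := (T.cor A A).zero_mem
      neg_mem' := fun {f} hf => (T.cor A A).neg_mem hf }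
  exact gen (T.par A) (T.par_par A) R (T.cor_par A A) htr h

end Pool.Agent.Y824.ZI
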